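import Mathlib
import Pool.Agent.NPC.Defs
import Pool.Agent.H697R2.Part.Inst

/-!
# Separation of partitionable graph inequalities is NP-hard

The reduction from satisfiability: for a formula with `m` clauses take a cyclic strip of
`6 m + 1` positions; each position carries one vertex, except the positions `6 j`, which carry one
vertex for every literal of the `j`-th clause. Vertices at cyclic distance at most `2` are
adjacent, and so are the vertices of contradictory literals. All the weights are `1/3`. The graph
has no `K₄`, and its partitionable induced subgraphs with clique number `3` are exactly the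
closed strips `C_{6m+1}^2` that choose one literal in each clause and no two contradictory ones.
-/

set_option autoImplicit false

namespace Pool.Agent.Results.MP_42fe4d_lc.SeparationNPHard

open Pool.Agent.NPC (PolyTime InNP TEnc bits)
open Turing

/-- An instance of the separation problem: the list of the values `x_0, …, x_{n-1}` (rational
numbers) at the vertices `0, …, n-1`, and a list of edges. -/
abbrev Inst : Type := List ℚ × List (ℕ × ℕ)

/-- The number of vertices. -/
def numV (s : Inst) : ℕ := s.1.length

/-- The graph of an instance: distinct vertices are adjacent iff they form a listed pair. -/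
def graph (s : Inst) : SimpleGraph (Fin (numV s)) where
  Adj i j := i ≠ j ∧ (((i : ℕ), (j : ℕ)) ∈ s.2 ∨ ((j : ℕ), (i : ℕ)) ∈ s.2)
  symm := ⟨fun _ _ h => ⟨h.1.symm, h.2.symm⟩⟩
  loopless := ⟨fun _ h => h.1 rfl⟩

/-- The vector `x` of an instance. -/
def x (s : Inst) (i : Fin (numV s)) : ℚ := s.1.get i

/-- The induced subgraph `G[I]` is partitionable: there are `α, ω ≥ 2` with `|I| = α ω + 1` such
that for each `v ∈ I` the set `I \ {v}` can be partitioned into `α` cliques of size `ω` and also
into `ω` stable sets of size `α`. -/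
def IsPartitionable {V : Type} [DecidableEq V] (G : SimpleGraph V) (I : Finset V) : Prop :=
  ∃ α ω : ℕ, 2 ≤ α ∧ 2 ≤ ω ∧ I.card = α * ω + 1 ∧ ∀ v ∈ I,
    (∃ P : Finpartition (I.erase v), P.parts.card = α ∧ ∀ K ∈ P.parts, G.IsNClique ω K) ∧
    (∃ Q : Finpartition (I.erase v), Q.parts.card = ω ∧ ∀ S ∈ Q.parts, G.IsNIndepSet α S)

/-- The set `I` gives a violated partitionable graph inequality: `G[I]` is partitionable and
`∑_{v ∈ I} x_v > α(G[I])`. -/
def Violated (s : Inst) (I : Finset (Fin (numV s))) : Prop :=
  IsPartitionable (graph s) I ∧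
    (((graph s).induce (I : Set (Fin (numV s)))).indepNum : ℚ) < ∑ v ∈ I, x s v

/-- `x ∈ QSTAB(G)`: `x ≥ 0` and `x` satisfies all the clique inequalities `∑_{v ∈ K} x_v ≤ 1`
(in particular `x ∈ [0,1]^V`). -/
def InQSTAB (s : Inst) : Prop :=
  (∀ v, 0 ≤ x s v) ∧ ∀ K : Finset (Fin (numV s)), (graph s).IsClique K → ∑ v ∈ K, x s v ≤ 1

/-- The answer `o` solves the separation problem for the instance `s`: it is (the list of the
elements of) a set `I` giving a violated partitionable graph inequality, or it is `none` and there
is no such set. -/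
def Separates (s : Inst) (o : Option (List ℕ)) : Prop :=
  match o with
  | some l => ∃ I : Finset (Fin (numV s)), Violated s I ∧ ∀ v : Fin (numV s), v ∈ I ↔ (v : ℕ) ∈ l
  | none => ¬ ∃ I : Finset (Fin (numV s)), Violated s I

/-- The class `P`: languages decided by Turing machines in polynomial time. -/
def InP (L : Set (List Bool)) : Prop :=
  ∃ V : List Bool → List Bool, PolyTime V ∧ ∀ w, w ∈ L ↔ V w = [true]

open Pool.Agent.H697R2.Part in
theorem inst_spec (φ : List (List (Bool × ℕ))) :
    (∀ q ∈ (inst (pad φ)).1, q = 1 / 3) ∧ (graph (inst (pad φ))).CliqueFree 4 ∧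
      (Sat (pad φ) ↔ ∃ I, Violated (inst (pad φ)) I) := by
  have h1 : ∀ q ∈ (inst (pad φ)).1, q = 1 / 3 := by
    intro q hq
    simp only [inst, List.mem_map] at hq
    obtain ⟨_, _, rfl⟩ := hq
    rfl
  have hx : ∀ i, x (inst (pad φ)) i = 1 / 3 := fun i => h1 _ (List.get_mem _ _)
  obtain ⟨h2, h3⟩ := main_cast (φ := pad φ) (pad_ne φ) (N := numV (inst (pad φ)))
    (by simp [numV, inst]) (graph (inst (pad φ))) (fun i j => Iff.rfl) (x (inst (pad φ))) hx
  exact ⟨h1, h2, h3⟩

theorem qstab_of {s : Inst} (h1 : ∀ q ∈ s.1, q = 1 / 3) (h2 : (graph s).CliqueFree 4) :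
    InQSTAB s := by
  have hx : ∀ i, x s i = 1 / 3 := fun i => h1 _ (List.get_mem _ _)
  refine ⟨fun v => by rw [hx]; norm_num, fun K hK => ?_⟩
  have hK3 : K.card ≤ 3 := by
    by_contra hc
    exact (SimpleGraph.CliqueFree.mono (by omega : 4 ≤ K.card) h2) K ⟨hK, rfl⟩
  rw [Finset.sum_congr rfl (fun v _ => hx v), Finset.sum_const, nsmul_eq_mul]
  have : (K.card : ℚ) ≤ 3 := by exact_mod_cast hK3
  linarith

open Pool.Agent.NPC in
/-- **NP-hardness of the separation of partitionable graph inequalities.** First, deciding whether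
some partitionable graph inequality is violated is `NP`-hard, even for graphs without cliques of
size `4` and `x = (1/3, …, 1/3)`, so that `x ∈ QSTAB(G)`. Second, if some polynomial-time
algorithm solves the separation problem for all the `x ∈ QSTAB(G)`, then `P = NP`. -/
theorem result :
    (∀ L : Set (List Bool), InNP L → ∃ f : List Bool → Inst,
      PolyTime (fun w => bits (f w)) ∧
      (∀ w, (∀ q ∈ (f w).1, q = 1 / 3) ∧ (graph (f w)).CliqueFree 4 ∧ InQSTAB (f w)) ∧
      ∀ w, w ∈ L ↔ ∃ I, Violated (f w) I) ∧
    ((∃ f : Inst → Option (List ℕ), Nonempty (TM2ComputableInPolyTime bits bits f) ∧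
        ∀ s, InQSTAB s → Separates s (f s)) →
      ∀ L : Set (List Bool), InNP L → InP L) := by
  constructor
  · intro L hL
    obtain ⟨f, hf, h⟩ := Pool.Agent.NPC.H697.hard_inst L hL
    refine ⟨fun w => Pool.Agent.H697R2.Part.inst (Pool.Agent.H697R2.Part.pad (f w)), ?_, ?_, ?_⟩
    · exact PC.toPolyTime hf
    · intro w
      obtain ⟨h1, h2, _⟩ := inst_spec (f w)
      exact ⟨h1, h2, qstab_of h1 h2⟩
    · intro w
      rw [h w]
      exact (inst_spec (f w)).2.2
  · rintro ⟨f, hf, hsep⟩ L hL
    obtain ⟨g, hg, h⟩ := Pool.Agent.NPC.H697.hard_inst L hL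
    have hf' : PC (bits : Inst → List Bool) (bits : Option (List ℕ) → List Bool) f :=
      Pool.Agent.H642R2.TMSim.toPC hf
    have hfg : PC (fun w : List Bool => w) (bits : Option (List ℕ) → List Bool)
        (fun w => f (Pool.Agent.H697R2.Part.inst (Pool.Agent.H697R2.Part.pad (g w)))) :=
      PC.comp hf' hg
    refine ⟨fun w => if toT (f (Pool.Agent.H697R2.Part.inst (Pool.Agent.H697R2.Part.pad (g w)))) =
      T.nil then [false] else [true], PC.toPolyTime ?_, ?_⟩
    · exact PC.ite (ea := (id : List Bool → List Bool)) (eb := (id : List Bool → List Bool))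
        (f := fun w => toT (f (Pool.Agent.H697R2.Part.inst (Pool.Agent.H697R2.Part.pad (g w)))))
        hfg (PC.const [false]) (PC.const [true])
    · intro w
      obtain ⟨h1, h2, h3⟩ := inst_spec (g w)
      have hs := hsep _ (qstab_of h1 h2)
      rw [h w, h3]
      cases hfw : f (Pool.Agent.H697R2.Part.inst (Pool.Agent.H697R2.Part.pad (g w))) with
      | none =>
        rw [hfw] at hs
        have e : toT (none : Option (List ℕ)) = T.nil := rfl
        beta_reduce
        rw [hfw, e, if_pos rfl]
        simp only [Separates] at hs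
        simp [hs]
      | some l =>
        rw [hfw] at hs
        have e : toT (some l) ≠ T.nil := by
          intro h
          cases h
        beta_reduce
        rw [hfw, if_neg e]
        simp only [Separates] at hs
        obtain ⟨I, hI, _⟩ := hs
        simp only [iff_true]
        exact ⟨I, hI⟩

end Pool.Agent.Results.MP_42fe4d_lc.SeparationNPHard
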